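import Mathlib
import Pool.Agent.H42R3.KPart3

set_option autoImplicit false
open scoped Pointwise Cardinal

namespace Pool.Agent.Results.MP_e349a0_al.AlephOne

universe u

/-- Every infinite group `G` has a partition into exactly `|G|` cells, each of which is both left
`ℵ₁`-large and right `ℵ₁`-large. -/
theorem result : ∀ (G : Type u) [Group G] [Infinite G],
    ∃ P : Set (Set G), Setoid.IsPartition P ∧ #P = #G ∧ ∀ A ∈ P,
      (∃ F : Set G, #F < Cardinal.aleph 1 ∧ F * A = Set.univ) ∧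
      (∃ F : Set G, #F < Cardinal.aleph 1 ∧ A * F = Set.univ) := by
  intro G _ _
  obtain ⟨P, h1, h2, h3⟩ := Pool.Agent.H42R3.KPart.main1 (G := G)
  refine ⟨P, h1, h2, ?_⟩
  intro A hA
  obtain ⟨⟨F, hF, hFA⟩, ⟨F', hF', hFA'⟩⟩ := h3 A hA
  exact ⟨⟨F, Cardinal.countable_iff_lt_aleph_one F |>.1 hF, hFA⟩,
    ⟨F', Cardinal.countable_iff_lt_aleph_one F' |>.1 hF', hFA'⟩⟩

end Pool.Agent.Results.MP_e349a0_al.AlephOne
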